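import Pool.Agent.helper60.DK.Spec

/-!
# Row dk:ME1 (MP_fb2c2a_nt): the first cubic polynomial solves `Eop (M1 p) = 0`
-/

set_option autoImplicit false

namespace Pool.Agent.helper60.DK

open Polynomial Finset

namespace ME1row

section general

variable {K : Type*} [Field K]

/-- `A = (X-1)(X+2)^2` -/
noncomputable def AA (K : Type*) [Field K] : K[X] := (X - 1) * (X + 2) ^ 2

/-- `G = X (X-1) (X+2)` -/
noncomputable def GG (K : Type*) [Field K] : K[X] := X * (X - 1) * (X + 2)

theorem X_sub_one_ne : (X - 1 : K[X]) ≠ 0 := by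
  have := X_sub_C_ne_zero (1 : K)
  simpa using this

theorem X_add_two_ne : (X + 2 : K[X]) ≠ 0 := by
  have := X_sub_C_ne_zero (-2 : K)
  intro h
  apply this
  rw [C_neg, sub_neg_eq_add]
  exact h

theorem AA_ne : AA K ≠ 0 := by
  unfold AA
  exact mul_ne_zero X_sub_one_ne (pow_ne_zero _ X_add_two_ne)

theorem GG_ne : GG K ≠ 0 := by
  unfold GG
  exact mul_ne_zero (mul_ne_zero X_ne_zero X_sub_one_ne) X_add_two_ne

theorem der_AA : derivative (AA K) = 3 * X * (X + 2) := by
  unfold AA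
  simp only [derivative_mul, derivative_sub, derivative_X, derivative_one, derivative_pow,
    derivative_add]
  have h2 : derivative (2 : K[X]) = 0 := by
    have := derivative_natCast (R := K) (n := 2)
    simpa using this
  rw [h2]
  push_cast
  simp only [map_ofNat]
  ring

theorem der_pow (j : ℕ) :
    (X - 1) * (X + 2) * derivative (AA K ^ j) = 3 * (j : K[X]) * X * AA K ^ j := by
  rcases j with _ | i
  · simp
  · rw [derivative_pow, der_AA]
    have e : (C (((i + 1 : ℕ) : K)) : K[X]) = ((i + 1 : ℕ) : K[X]) := by simp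
    rw [e, Nat.add_sub_cancel, pow_succ]
    unfold AA
    ring

theorem der_X_pow (e : ℕ) :
    X * derivative ((X : K[X]) ^ e) = (e : K[X]) * X ^ e := by
  rcases e with _ | i
  · simp
  · rw [derivative_X_pow]
    have e : (C (((i + 1 : ℕ) : K)) : K[X]) = ((i + 1 : ℕ) : K[X]) := by simp
    rw [e, Nat.add_sub_cancel, pow_succ]
    ring

theorem der_first (j e : ℕ) :
    GG K * derivative (AA K ^ j * X ^ e)
      = (3 * (j : K[X]) * X ^ 2 + (e : K[X]) * ((X - 1) * (X + 2))) * (AA K ^ j * X ^ e) := by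
  rw [derivative_mul]
  unfold GG
  linear_combination (X * X ^ e) * der_pow (K := K) j
    + ((X - 1) * (X + 2) * AA K ^ j) * der_X_pow (K := K) e

theorem der_two : derivative (2 : K[X]) = 0 := by
  have := derivative_natCast (R := K) (n := 2)
  simpa using this

theorem der_three : derivative (3 : K[X]) = 0 := by
  have := derivative_natCast (R := K) (n := 3)
  simpa using this

theorem der_GG : derivative (GG K) = 3 * X ^ 2 + 2 * X - 2 := by
  unfold GG
  simp only [derivative_mul, derivative_sub, derivative_X, derivative_one, derivative_add, der_two]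
  ring

theorem der_gg (j e : ℕ) :
    derivative (3 * (j : K[X]) * X ^ 2 + (e : K[X]) * ((X - 1) * (X + 2)))
      = 6 * (j : K[X]) * X + (e : K[X]) * (2 * X + 1) := by
  simp only [derivative_mul, derivative_sub, derivative_X, derivative_one, derivative_add, der_two,
    der_three, derivative_natCast, derivative_X_pow]
  simp only [Nat.cast_ofNat, map_ofNat]
  ring

theorem der_second (j e : ℕ) :
    GG K ^ 2 * derivative (derivative (AA K ^ j * X ^ e))
      = (GG K * (6 * (j : K[X]) * X + (e : K[X]) * (2 * X + 1))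
          + (3 * (j : K[X]) * X ^ 2 + (e : K[X]) * ((X - 1) * (X + 2))) ^ 2
          - (3 * X ^ 2 + 2 * X - 2)
            * (3 * (j : K[X]) * X ^ 2 + (e : K[X]) * ((X - 1) * (X + 2))))
        * (AA K ^ j * X ^ e) := by
  have h1 := der_first (K := K) j e
  have h2 := congrArg derivative h1
  rw [derivative_mul (f := GG K), derivative_mul
    (f := 3 * (j : K[X]) * X ^ 2 + (e : K[X]) * ((X - 1) * (X + 2))), der_GG, der_gg] at h2
  linear_combination (GG K) * h2
    + ((3 * (j : K[X]) * X ^ 2 + (e : K[X]) * ((X - 1) * (X + 2))) - (3 * X ^ 2 + 2 * X - 2)) * h1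

theorem key_mul (j e : ℕ) (he : (e : K[X]) = -1 - 3 * (j : K[X])) :
    X ^ 2 * Eop (AA K ^ j * X ^ e) * AA K
      = -(4 - X ^ 2) * (-18 * (j : K[X]) ^ 2 * X ^ 3
          + (3 * (j : K[X]) + 1) * (3 * (j : K[X]) + 2) * AA K) * (AA K ^ j * X ^ e) := by
  have hG : (GG K) ^ 2 ≠ 0 := pow_ne_zero _ GG_ne
  apply mul_left_cancel₀ hG
  have h1 := der_first (K := K) j e
  have h2 := der_second (K := K) j e
  rw [he] at h1 h2
  unfold Eop
  generalize (AA K ^ j * X ^ e) = y at h1 h2 ⊢
  generalize derivative (derivative y) = y2 at h2 ⊢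
  generalize derivative y = y1 at h1 h2 ⊢
  have eA : AA K = (X - 1) * (X + 2) ^ 2 := rfl
  have eG : GG K = X * (X - 1) * (X + 2) := rfl
  rw [eA]
  rw [eG] at h1 h2 ⊢
  linear_combination (X ^ 2 * ((X - 1) * (X + 2) ^ 2) * ((X ^ 2 - 1) * (4 - X ^ 2))) * h2
    + (X ^ 2 * ((X - 1) * (X + 2) ^ 2) * (10 * X - 4 * X ^ 3) * (X * (X - 1) * (X + 2))) * h1

theorem key_zero (e : ℕ) (he : (e : K[X]) = -1) :
    X ^ 2 * Eop ((X : K[X]) ^ e) = -(4 - X ^ 2) * (2 * X ^ e) := by
  apply mul_right_cancel₀ (AA_ne (K := K))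
  have h := key_mul (K := K) 0 e (by simpa using he)
  simp only [pow_zero, one_mul, Nat.cast_zero] at h
  linear_combination h

theorem key_succ (i e : ℕ) (he : (e : K[X]) = -1 - 3 * ((i : K[X]) + 1)) :
    X ^ 2 * Eop (AA K ^ (i + 1) * X ^ e)
      = -(4 - X ^ 2) * (-18 * ((i : K[X]) + 1) ^ 2 * (AA K ^ i * X ^ (e + 3))
          + (3 * ((i : K[X]) + 1) + 1) * (3 * ((i : K[X]) + 1) + 2)
            * (AA K ^ (i + 1) * X ^ e)) := by
  apply mul_right_cancel₀ (AA_ne (K := K))
  have h := key_mul (K := K) (i + 1) e (by push_cast; exact he)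
  push_cast at h
  rw [h]
  ring

theorem Eop_C_mul (c : K) (y : K[X]) : Eop (C c * y) = C c * Eop y := by
  unfold Eop
  rw [derivative_C_mul, derivative_C_mul]
  ring

theorem Eop_add (y z : K[X]) : Eop (y + z) = Eop y + Eop z := by
  unfold Eop
  rw [derivative_add, derivative_add]
  ring

theorem Eop_zero : Eop (0 : K[X]) = 0 := by
  unfold Eop
  simp

end general

variable (p : ℕ) [Fact p.Prime]

/-- coefficient `c_j = d_j (-1/2)^j` -/
noncomputable def c1 (j : ℕ) : ZMod p := ((dc (nn p) j : ℤ) : ZMod p) * (-1 / 2) ^ j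

theorem c1_succ (h5 : 5 ≤ p) (m : ℕ) :
    c1 p (m + 1) * (-18 * ((m : ZMod p) + 1) ^ 2)
      = -(c1 p m * ((3 * (m : ZMod p) + 1) * (3 * (m : ZMod p) + 2))) := by
  have h9 := nine_nK (p := p) h5
  have h := congrArg (Int.cast : ℤ → ZMod p) (dc_succ (nn p) m)
  push_cast at h
  unfold c1
  have h2 : (2 : ZMod p) ≠ 0 := two_ne h5
  have e2 : (2 : ZMod p) * (-1 / 2) = -1 := by field_simp
  rw [pow_succ]
  set q : ZMod p := -1 / 2
  set N : ZMod p := (nn p : ZMod p)
  set μ : ZMod p := (m : ZMod p)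
  set d1 : ZMod p := ((dc (nn p) (m + 1) : ℤ) : ZMod p)
  set d0 : ZMod p := ((dc (nn p) m : ℤ) : ZMod p)
  linear_combination (-9 * (μ + 1) ^ 2 * d1 * q ^ m) * e2 + (9 * q ^ m) * h
    + (q ^ m * d0) * h9

theorem partial_sum (h5 : 5 ≤ p) (m : ℕ) (hm : m ≤ nn p) :
    X ^ 2 * Eop (∑ j ∈ range (m + 1), C (c1 p j) * (AA (ZMod p) ^ j * X ^ (p - 1 - 3 * j)))
      = -(4 - X ^ 2) * (C (c1 p m * ((3 * (m : ZMod p) + 1) * (3 * (m : ZMod p) + 2)))
          * (AA (ZMod p) ^ m * X ^ (p - 1 - 3 * m))) := by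
  have hn : 3 * nn p + 1 ≤ p := by
    rcases p_mod_three (p := p) h5 with h | h <;> unfold nn <;> omega
  have hcast : ∀ j : ℕ, j ≤ nn p →
      (((p - 1 - 3 * j : ℕ)) : (ZMod p)[X]) = -1 - 3 * (j : (ZMod p)[X]) := by
    intro j hj
    have e1 : (p - 1 - 3 * j) + (1 + 3 * j) = p := by omega
    have e2 : (((p - 1 - 3 * j) + (1 + 3 * j) : ℕ) : (ZMod p)[X]) = ((p : ℕ) : (ZMod p)[X]) := by
      rw [e1]
    have e3 : ((p : ℕ) : (ZMod p)[X]) = 0 := by
      have : ((p : ℕ) : ZMod p) = 0 := ZMod.natCast_self p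
      have h' := congrArg (C : ZMod p → (ZMod p)[X]) this
      simpa using h'
    rw [e3] at e2
    push_cast at e2
    linear_combination e2
  induction m with
  | zero =>
    rw [zero_add, Finset.sum_range_one, Eop_C_mul]
    have h := key_zero (K := ZMod p) (p - 1 - 3 * 0) (by simpa using hcast 0 (Nat.zero_le _))
    simp only [pow_zero, one_mul, Nat.cast_zero, mul_zero, zero_add, C_mul]
    simp only [mul_zero] at h
    have e2 : (C (2 : ZMod p) : (ZMod p)[X]) = 2 := rfl
    rw [e2]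
    linear_combination C (c1 p 0) * h
  | succ m ih =>
    have ih' := ih (by omega)
    rw [Finset.sum_range_succ, Eop_add, mul_add, ih', Eop_C_mul]
    have hc := hcast (m + 1) hm
    push_cast at hc
    have h := key_succ (K := ZMod p) m (p - 1 - 3 * (m + 1)) hc
    have hexp : p - 1 - 3 * (m + 1) + 3 = p - 1 - 3 * m := by omega
    rw [hexp] at h
    have hcc := congrArg (C : ZMod p → (ZMod p)[X]) (c1_succ p h5 m)
    simp only [C_mul, C_neg, C_add, C_pow, C_1, map_natCast] at hcc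
    have e2 : (C (2 : ZMod p) : (ZMod p)[X]) = 2 := rfl
    have e3 : (C (3 : ZMod p) : (ZMod p)[X]) = 3 := rfl
    have e18 : (C (18 : ZMod p) : (ZMod p)[X]) = 18 := rfl
    simp only [C_mul, C_add, C_1, map_natCast, Nat.cast_add, Nat.cast_one]
    rw [e2, e3]
    rw [e2, e3, e18] at hcc
    linear_combination C (c1 p (m + 1)) * h
      - ((4 - X ^ 2) * (AA (ZMod p) ^ m * X ^ (p - 1 - 3 * m))) * hcc

end ME1row

open ME1row in
theorem ME1 : ME1_stmt := by
  intro p _ h5
  have hX : (X : (ZMod p)[X]) ^ 2 ≠ 0 := pow_ne_zero _ X_ne_zero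
  apply mul_left_cancel₀ hX
  have h := partial_sum p h5 (nn p) le_rfl
  have hM : M1 p = ∑ j ∈ range (nn p + 1),
      C (c1 p j) * (AA (ZMod p) ^ j * X ^ (p - 1 - 3 * j)) := rfl
  rw [hM, h]
  have h9 := nine_nK (p := p) h5
  have h0 : (3 * (nn p : ZMod p) + 1) * (3 * (nn p : ZMod p) + 2) = 0 := by
    linear_combination h9
  rw [h0, mul_zero, C_0, zero_mul, mul_zero, mul_zero]

end Pool.Agent.helper60.DK
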